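import Mathlib
import Pool.Agent.Lib.MP_cfa256_gt.Defs
import Pool.Agent.Lib.MP_cfa256_gt.Main

set_option autoImplicit false

namespace Pool.Agent.Results.MP_cfa256_gt.MainVariables

open Pool.Agent.Lib.MP_cfa256_gt Filter Topology
open scoped ContDiff

/-- Near a regular point, in David-Hertling coordinates with blocks of sizes `m a`, the
connection attached to a linear function exists, and the compatibility equation has a smooth
non-degenerate invariant solution if and only if the linear function involves only the main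
variables. -/
theorem result (K : Type) [RCLike K] (r : ℕ) (m : Fin r → ℕ) (hm : ∀ a, 0 < m a)
    (p : Idx m → K) (hp : Regular p) (c : Idx m → K) :
    (∃ G, ∀ᶠ u in 𝓝 p, IsNabla c G u) ∧
    ∀ G, (∀ᶠ u in 𝓝 p, IsNabla c G u) →
      ((∃ U : Set (Idx m → K), IsOpen U ∧ p ∈ U ∧
          ∃ g : (Idx m → K) → (Idx m → K) →ₗ[K] (Idx m → K) →ₗ[K] K,
            (∀ Y Z, ContDiffOn K ∞ (fun v => g v Y Z) U) ∧
            ∀ u ∈ U, IsInvMetric (g u) ∧ Star G g u) ↔
        ∃ eps : Fin r → K, ∀ u, lin c u = ∑ a, (m a : K) * eps a * u ⟨a, ⟨0, hm a⟩⟩) := by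
  refine ⟨exists_nabla hm p hp c, fun G hG => ⟨?_, ?_⟩⟩
  · rintro ⟨U, hU, hpU, g, hg, h⟩
    exact only_main hm p c G hG.self_of_nhds U hU hpU g hg h
  · rintro ⟨eps, heps⟩
    exact exists_metric hm p hp c G hG eps heps

end Pool.Agent.Results.MP_cfa256_gt.MainVariables
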